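import Pool.Agent.Rect22.Final2
import Pool.Agent.Rect22.Final4
import Pool.Agent.Rect22.Transport
import Pool.Agent.Rect22.StratGen

/-!
The (2:2) Maker-Breaker game on the `N × N` board: the upper bounds `2 √(log₂ N)` for parallelogram
lattices and `√(2 log₂ N)` for aligned rectangle lattices (questions Q1 and Q2 of MP_d62fe1_co).
-/

set_option autoImplicit false
set_option linter.unusedVariables false

namespace Pool.Agent.Results.MP_d62fe1_co.BothQuestions

open Finset

/-- The `N × N` board. -/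
noncomputable def board (N : ℕ) : Finset (ℤ × ℤ) := Icc 1 (N : ℤ) ×ˢ Icc 1 (N : ℤ)

section
variable {α : Type*} [DecidableEq α]

/-- A move is the set of the points claimed in it. A play `h` on the board `V` is the list of its
moves; the moves number `0, 2, 4, ...` are made by Maker and the moves number `1, 3, 5, ...` by
Breaker. `unclaimed V h` is the set of the points of the board not claimed in `h`. -/
def unclaimed (V : Finset α) (h : List (Finset α)) : Finset α :=
  V.filter (fun x => ∀ m ∈ h, x ∉ m)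

/-- A legal move after `h` (of either player) consists of two unclaimed points or, if only one point
is unclaimed, of this point. -/
def IsLegalMove (V : Finset α) (h : List (Finset α)) (m : Finset α) : Prop :=
  m ⊆ unclaimed V h ∧ m.card = min 2 (unclaimed V h).card ∧ m.Nonempty

/-- All moves of `h` are legal. -/
def IsPlay (V : Finset α) (h : List (Finset α)) : Prop :=
  ∀ (i : ℕ) (hi : i < h.length), IsLegalMove V (h.take i) (h[i]'hi)

/-- The player making the moves with number congruent to `p` modulo 2 follows `σ`: each of these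
moves is the value of `σ` at the list of the earlier moves. -/
def Follows (p : ℕ) (σ : List (Finset α) → Finset α) (h : List (Finset α)) : Prop :=
  ∀ (i : ℕ) (hi : i < h.length), i % 2 = p → h[i]'hi = σ (h.take i)

/-- `σ` is a strategy of this player (`p = 0`: Maker, `p = 1`: Breaker): it gives a legal move in
every position in which the player is to move and which can arise when he follows it. -/
def IsStrategy (V : Finset α) (p : ℕ) (σ : List (Finset α) → Finset α) : Prop :=
  ∀ h : List (Finset α), IsPlay V h → Follows p σ h → h.length % 2 = p →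
    (unclaimed V h).Nonempty → IsLegalMove V h (σ h)

/-- The point `x` was claimed by Maker in the play `h`. -/
def MakerOwns (h : List (Finset α)) (x : α) : Prop :=
  ∃ (i : ℕ) (hi : i < h.length), i % 2 = 0 ∧ x ∈ h[i]'hi

/-- Breaker has a strategy with which, at the end of every play, Maker owns all points of no set of
the family `𝓕`. -/
def BreakerWins (V : Finset α) (𝓕 : Set (Set α)) : Prop :=
  ∃ τ : List (Finset α) → Finset α, IsStrategy V 1 τ ∧
    ∀ h : List (Finset α), IsPlay V h → Follows 1 τ h → unclaimed V h = ∅ →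
      ∀ S ∈ 𝓕, ¬ ∀ x ∈ S, MakerOwns h x

end

/-- The `q × q` parallelogram lattices `{P + i u + j v : 0 ≤ i, j ≤ q - 1}`, `u`, `v` linearly
independent. -/
def parallelograms (q : ℕ) : Set (Set (ℤ × ℤ)) :=
  {S | ∃ P u v : ℤ × ℤ, LinearIndependent ℤ ![u, v] ∧
    S = {x | ∃ i j : ℕ, i < q ∧ j < q ∧ x = P + (i : ℤ) • u + (j : ℤ) • v}}

/-- The `q × q` aligned rectangle lattices `{P + i (d, 0) + j (0, e) : 0 ≤ i, j ≤ q - 1}`,
`d, e ≥ 1`. -/
def rectangles (q : ℕ) : Set (Set (ℤ × ℤ)) :=
  {S | ∃ (P : ℤ × ℤ) (d e : ℤ), 1 ≤ d ∧ 1 ≤ e ∧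
    S = {x | ∃ i j : ℕ, i < q ∧ j < q ∧ x = P + (i : ℤ) • (d, (0 : ℤ)) + (j : ℤ) • ((0 : ℤ), e)}}

theorem par_wins (c : ℝ) (hc : 2 < c) : ∃ N₀ : ℕ, ∀ N : ℕ, N₀ ≤ N → ∀ q : ℕ,
    c * Real.sqrt (Real.logb 2 N) ≤ q + 1 → BreakerWins (board N) (parallelograms q) := by
  obtain ⟨N₀, h⟩ := Rect22.final4 c hc
  refine ⟨N₀, fun N hN q hq => ?_⟩
  obtain ⟨τ, h1, h2⟩ := h N hN q hq
  refine ⟨τ, h1, fun g hg hf hu S hS hown => h2 g hg hf hu ?_⟩
  obtain ⟨P, u, v, huv, rfl⟩ := hS
  exact ⟨P, u, v, huv, fun i j hi hj => hown _ ⟨i, j, hi, hj, rfl⟩⟩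

theorem rect_wins_of_hyp {N q h q0 : ℕ} {D : Rect22.Dat (ℕ × ℕ)} (H : Rect22.Hyp D)
    (hV : D.V = Rect22.board N) (hF : D.Fam = Rect22.Fam2 N q h) (hh : 1 ≤ h) (hq : 1 ≤ q)
    (hq0 : q + h ≤ q0) : BreakerWins (board N) (rectangles q0) := by
  refine Rect22.Gen.breakerWins_of_rule (V := Rect22.boardZ N)
    (fun M B => Rect22.Good D (M.image Rect22.toN) (B.image Rect22.toN)) ?_ ?_ ?_
  · simpa using Rect22.good_start H
  · refine Rect22.transport_rule ?_
    intro M B m hM hB hMB hG hm hm2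
    rw [← hV] at hm ⊢
    exact Rect22.good_round H hG hm hm2
  · intro M B hM hB hMB hG hfull S hS hSM
    obtain ⟨P, d, e, hd, he, rfl⟩ := hS
    -- the lattice in `ℕ × ℕ`
    have hin : ∀ i j : ℕ, i < q0 → j < q0 →
        P + (i : ℤ) • (d, (0 : ℤ)) + (j : ℤ) • ((0 : ℤ), e) ∈ M := by
      intro i j hi hj
      exact hSM ⟨i, j, hi, hj, rfl⟩
    have h00 : (P.1, P.2) ∈ Rect22.boardZ N := by
      have := hM (hin 0 0 (by omega) (by omega))
      simpa using this
    have hP1 : 1 ≤ P.1 := by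
      simp only [Rect22.boardZ, mem_product, mem_Icc] at h00
      exact h00.1.1
    have hP2 : 1 ≤ P.2 := by
      simp only [Rect22.boardZ, mem_product, mem_Icc] at h00
      exact h00.2.1
    have hL : Rect22.HasLattice q0 (M.image Rect22.toN) := by
      refine ⟨P.1.toNat, P.2.toNat, d.toNat, e.toNat, by omega, by omega, ?_⟩
      intro i j hi hj
      have h1 := hin i j hi hj
      rw [mem_image]
      refine ⟨_, h1, ?_⟩
      unfold Rect22.toN
      have e1 : (P + (i : ℤ) • (d, (0 : ℤ)) + (j : ℤ) • ((0 : ℤ), e)).1 = P.1 + i * d := by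
        simp
      have e2 : (P + (i : ℤ) • (d, (0 : ℤ)) + (j : ℤ) • ((0 : ℤ), e)).2 = P.2 + j * e := by
        simp
      rw [e1, e2]
      have hd' : (d.toNat : ℤ) = d := Int.toNat_of_nonneg (by omega)
      have he' : (e.toNat : ℤ) = e := Int.toNat_of_nonneg (by omega)
      have hP1' : (P.1.toNat : ℤ) = P.1 := Int.toNat_of_nonneg (by omega)
      have hP2' : (P.2.toNat : ℤ) = P.2 := Int.toNat_of_nonneg (by omega)
      refine Prod.ext ?_ ?_
      · have : ((P.1.toNat + i * d.toNat : ℕ) : ℤ) = P.1 + i * d := by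
          push_cast
          rw [hd', hP1']
        show (P.1 + i * d).toNat = P.1.toNat + i * d.toNat
        rw [← this]
        exact Int.toNat_natCast _
      · have : ((P.2.toNat + j * e.toNat : ℕ) : ℤ) = P.2 + j * e := by
          push_cast
          rw [he', hP2']
        show (P.2 + j * e).toNat = P.2.toNat + j * e.toNat
        rw [← this]
        exact Int.toNat_natCast _
    have hsub : ∀ M : Finset (ℤ × ℤ), M ⊆ Rect22.boardZ N →
        M.image Rect22.toN ⊆ Rect22.board N := by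
      intro M hM p hp
      rw [mem_image] at hp
      obtain ⟨x, hx, rfl⟩ := hp
      have := hM hx
      simp only [Rect22.boardZ, Rect22.board, Rect22.toN, mem_product, mem_Icc] at this ⊢
      omega
    obtain ⟨A, hA, hAM⟩ := Rect22.Fam2_of_has hh hq hq0 (hsub M hM) hL
    have hfull' : D.V \ (M.image Rect22.toN ∪ B.image Rect22.toN) = ∅ := by
      rw [hV, sdiff_eq_empty_iff_subset]
      intro p hp
      have hz : (((p.1 : ℤ), (p.2 : ℤ)) : ℤ × ℤ) ∈ Rect22.boardZ N := by
        simp only [Rect22.boardZ, Rect22.board, mem_product, mem_Icc] at hp ⊢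
        omega
      rw [sdiff_eq_empty_iff_subset] at hfull
      have := hfull hz
      rw [← image_union, mem_image]
      exact ⟨_, this, by simp [Rect22.toN]⟩
    rw [← hF] at hA
    exact Rect22.good_end H hG hfull' hA hAM

theorem rect_wins (c : ℝ) (hc : Real.sqrt 2 < c) : ∃ N₀ : ℕ, ∀ N : ℕ, N₀ ≤ N → ∀ q : ℕ,
    c * Real.sqrt (Real.logb 2 N) ≤ q + 1 → BreakerWins (board N) (rectangles q) := by
  have hc0 : 0 < c := lt_of_le_of_lt (Real.sqrt_nonneg 2) hc
  have hc2 : 2 < c ^ 2 := (Real.sqrt_lt' hc0).1 hc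
  set e : ℝ := min ((c ^ 2 - 2) / 2) (1 / 20) with he_def
  have he : 0 < e := lt_min (by linarith) (by norm_num)
  have he1 : e ≤ 1 / 20 := min_le_right _ _
  have he2 : ((2 : ℕ) : ℝ) + e < c ^ 2 := by
    have : e ≤ (c ^ 2 - 2) / 2 := min_le_left _ _
    push_cast
    linarith
  have h1 := Rect22.hyp2 he he1
  have h2 := Rect22.num_cont (κ := 2) le_rfl (by norm_num) he he1 hc0 he2
  obtain ⟨hth, h3⟩ := Rect22.num_over (κ := 2) le_rfl (by norm_num) he he1
  have h4 := (h1.and h2).and h3
  obtain ⟨N₀, hN₀⟩ := Filter.eventually_atTop.1 h4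
  refine ⟨N₀, fun N hN q hq => ?_⟩
  obtain ⟨⟨g1, g2⟩, g3⟩ := hN₀ N hN
  have hh : 1 ≤ Nat.sqrt (Rect22.qq 2 e N) := g3.2.2.2.1
  have hq1 : 1 ≤ Rect22.qq 2 e N := by
    by_contra hcon
    have h0 : Rect22.qq 2 e N = 0 := by omega
    rw [h0] at hh
    simp at hh
  exact rect_wins_of_hyp g1 rfl rfl hh hq1 (g2 q hq)

/-- **The upper bounds for the (2:2) game.** In the (2:2) game on the `N × N` board (Maker moves
first, each move claims two points, a single point if only one remains):
(Q1) for every constant `c > 2` and all large `N`, Breaker has a strategy which prevents Maker from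
owning a `q × q` parallelogram lattice, `q = ⌊c √(log₂ N)⌋`;
(Q2) for every constant `c > √2` and all large `N`, Breaker has a strategy which prevents Maker from
owning a `q × q` aligned rectangle lattice, `q = ⌊c √(log₂ N)⌋`.
The same holds for all larger `q`. -/
theorem result :
    (∀ c : ℝ, 2 < c → ∃ N₀ : ℕ, ∀ N : ℕ, N₀ ≤ N → ∀ q : ℕ,
      ⌊c * Real.sqrt (Real.logb 2 N)⌋₊ ≤ q → BreakerWins (board N) (parallelograms q)) ∧
    (∀ c : ℝ, Real.sqrt 2 < c → ∃ N₀ : ℕ, ∀ N : ℕ, N₀ ≤ N → ∀ q : ℕ,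
      ⌊c * Real.sqrt (Real.logb 2 N)⌋₊ ≤ q → BreakerWins (board N) (rectangles q)) := by
  have key : ∀ (x : ℝ) (q : ℕ), ⌊x⌋₊ ≤ q → x ≤ q + 1 := by
    intro x q hq
    have h1 := Nat.lt_floor_add_one x
    have h2 : ((⌊x⌋₊ : ℕ) : ℝ) ≤ q := by exact_mod_cast hq
    linarith
  refine ⟨fun c hc => ?_, fun c hc => ?_⟩
  · obtain ⟨N₀, h⟩ := par_wins c hc
    exact ⟨N₀, fun N hN q hq => h N hN q (key _ _ hq)⟩
  · obtain ⟨N₀, h⟩ := rect_wins c hc
    exact ⟨N₀, fun N hN q hq => h N hN q (key _ _ hq)⟩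

end Pool.Agent.Results.MP_d62fe1_co.BothQuestions
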