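import Pool.Agent.Rect22.Final2

/-!
The (2:2) Maker-Breaker game on the aligned rectangle lattices of the `N × N` board: the upper
bound `√(2 log₂ N)` for the size of the lattices which Maker can own (question Q2 of
MP_d62fe1_co).
-/

set_option autoImplicit false
set_option linter.unusedVariables false

namespace Pool.Agent.Results.MP_d62fe1_co.RectUpper

open Finset

/-- The `N × N` board. -/
def board (N : ℕ) : Finset (ℕ × ℕ) := Icc 1 N ×ˢ Icc 1 N

/-- A move is the set of the points claimed in it. A play `h` is the list of its moves; the moves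
number `0, 2, 4, ...` are made by Maker and the moves number `1, 3, 5, ...` by Breaker.
`unclaimed N h` is the set of the points of the board not claimed in `h`. -/
def unclaimed (N : ℕ) (h : List (Finset (ℕ × ℕ))) : Finset (ℕ × ℕ) :=
  (board N).filter (fun x => ∀ m ∈ h, x ∉ m)

/-- A legal move after `h` (of either player) consists of two unclaimed points or, if only one point
is unclaimed, of this point. -/
def IsLegalMove (N : ℕ) (h : List (Finset (ℕ × ℕ))) (m : Finset (ℕ × ℕ)) : Prop :=
  m ⊆ unclaimed N h ∧ m.card = min 2 (unclaimed N h).card ∧ m.Nonempty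

/-- All moves of `h` are legal. -/
def IsPlay (N : ℕ) (h : List (Finset (ℕ × ℕ))) : Prop :=
  ∀ (i : ℕ) (hi : i < h.length), IsLegalMove N (h.take i) (h[i]'hi)

/-- The player making the moves with number congruent to `p` modulo 2 follows `σ`: each of these
moves is the value of `σ` at the list of the earlier moves. -/
def Follows (p : ℕ) (σ : List (Finset (ℕ × ℕ)) → Finset (ℕ × ℕ))
    (h : List (Finset (ℕ × ℕ))) : Prop :=
  ∀ (i : ℕ) (hi : i < h.length), i % 2 = p → h[i]'hi = σ (h.take i)

/-- `σ` is a strategy of this player (`p = 0`: Maker, `p = 1`: Breaker): it gives a legal move in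
every position in which the player is to move and which can arise when he follows it. -/
def IsStrategy (N p : ℕ) (σ : List (Finset (ℕ × ℕ)) → Finset (ℕ × ℕ)) : Prop :=
  ∀ h : List (Finset (ℕ × ℕ)), IsPlay N h → Follows p σ h → h.length % 2 = p →
    (unclaimed N h).Nonempty → IsLegalMove N h (σ h)

/-- The point `x` was claimed by Maker in the play `h`. -/
def MakerOwns (h : List (Finset (ℕ × ℕ))) (x : ℕ × ℕ) : Prop :=
  ∃ (i : ℕ) (hi : i < h.length), i % 2 = 0 ∧ x ∈ h[i]'hi

/-- Maker owns all points of some `q × q` aligned rectangle lattice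
`{(a + i x, b + j y) : 0 ≤ i, j ≤ q - 1}` with steps `x, y ≥ 1`. -/
def OwnsLattice (h : List (Finset (ℕ × ℕ))) (q : ℕ) : Prop :=
  ∃ a b x y : ℕ, 1 ≤ x ∧ 1 ≤ y ∧ ∀ i j : ℕ, i < q → j < q → MakerOwns h (a + i * x, b + j * y)

/-- Breaker has a strategy with which, at the end of every play, Maker does not own all points of a
`q × q` aligned rectangle lattice. -/
def BreakerWins (N q : ℕ) : Prop :=
  ∃ τ : List (Finset (ℕ × ℕ)) → Finset (ℕ × ℕ), IsStrategy N 1 τ ∧
    ∀ h : List (Finset (ℕ × ℕ)), IsPlay N h → Follows 1 τ h → unclaimed N h = ∅ →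
      ¬ OwnsLattice h q

lemma breakerWins_iff (N q : ℕ) : BreakerWins N q ↔ Rect22.BreakerWins N q := Iff.rfl

/-- **Upper bound for the (2:2) game on aligned rectangle lattices.** For every constant `c > √2`
there is `N₀` such that for all `N ≥ N₀`, in the (2:2) game on the `N × N` board (Maker moves
first, each move claims two points, a single point if only one remains) Breaker has a strategy which
prevents Maker from owning a `q × q` aligned rectangle lattice, where `q = ⌊c √(log₂ N)⌋`; the same
holds for all larger `q`. -/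
theorem result (c : ℝ) (hc : Real.sqrt 2 < c) : ∃ N₀ : ℕ, ∀ N : ℕ, N₀ ≤ N →
    BreakerWins N ⌊c * Real.sqrt (Real.logb 2 N)⌋₊ ∧
    ∀ q : ℕ, ⌊c * Real.sqrt (Real.logb 2 N)⌋₊ ≤ q → BreakerWins N q := by
  obtain ⟨N₀, h⟩ := Rect22.final2 c hc
  have key : ∀ N : ℕ, N₀ ≤ N → ∀ q : ℕ, ⌊c * Real.sqrt (Real.logb 2 N)⌋₊ ≤ q →
      BreakerWins N q := by
    intro N hN q hq
    refine h N hN q ?_
    have h1 := Nat.lt_floor_add_one (c * Real.sqrt (Real.logb 2 N))
    have h2 : ((⌊c * Real.sqrt (Real.logb 2 N)⌋₊ : ℕ) : ℝ) ≤ q := by exact_mod_cast hq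
    linarith
  exact ⟨N₀, fun N hN => ⟨key N hN _ le_rfl, key N hN⟩⟩

end Pool.Agent.Results.MP_d62fe1_co.RectUpper
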